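import Pool.Agent.W37.SG.Stm2

set_option autoImplicit false

namespace Pool.Agent.W405.SG.CH

open Pool.Agent.W37.SG
open scoped BigOperators

section U
variable {p : ℕ}

lemma U_mono {a b : ℕ} (h : a ≤ b) : U p a ≤ U p b := by
  refine Submodule.span_mono ?_
  rintro f ⟨i, hi, rfl⟩
  exact ⟨i, hi.trans_le h, rfl⟩

lemma mon_mem {i n : ℕ} (h : i < n) : mon p i ∈ U p n := Submodule.subset_span ⟨i, h, rfl⟩

lemma U_zero {f : Fn p} (h : f ∈ U p 0) : f = 0 := by
  have : {f : Fn p | ∃ i < 0, f = mon p i} = ∅ := by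
    ext f; simp
  unfold U at h
  rw [this, Submodule.span_empty] at h
  exact (Submodule.mem_bot _).1 h

lemma U_succ {k : ℕ} {f : Fn p} (h : f ∈ U p (k + 1)) :
    ∃ c : ZMod p, f - c • mon p k ∈ U p k := by
  have : {f : Fn p | ∃ i < k + 1, f = mon p i} =
      insert (mon p k) {f : Fn p | ∃ i < k, f = mon p i} := by
    ext f
    constructor
    · rintro ⟨i, hi, rfl⟩
      rcases Nat.lt_succ_iff_lt_or_eq.1 hi with h | rfl
      · exact Or.inr ⟨i, h, rfl⟩
      · exact Or.inl rfl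
    · rintro (rfl | ⟨i, hi, rfl⟩)
      · exact ⟨k, Nat.lt_succ_self k, rfl⟩
      · exact ⟨i, hi.trans (Nat.lt_succ_self k), rfl⟩
  unfold U at h
  rw [this, Submodule.mem_span_insert] at h
  obtain ⟨c, z, hz, rfl⟩ := h
  exact ⟨c, by simpa [U] using hz⟩

lemma not_mem (D1 : S_D1) [Fact p.Prime] {k : ℕ} {f : Fn p} {c : ZMod p} (hc : c ≠ 0)
    (h : f - c • mon p k ∈ U p k) : f ∉ U p k := by
  intro hf
  have h1 : c • mon p k ∈ U p k := by
    have := (U p k).sub_mem hf h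
    simpa using this
  exact D1 p k (by
    have := (U p k).smul_mem c⁻¹ h1
    rwa [smul_smul, inv_mul_cancel₀ hc, one_smul] at this)

lemma ed_ne [Fact p.Prime] {k : ℕ} (hk : k ≠ 0) : ed p k ≠ 0 := by
  unfold ed
  intro h
  rw [ZMod.natCast_eq_zero_iff] at h
  have h1 : p ∣ k / p ^ padicValNat p k := (Nat.dvd_mod_iff (dvd_refl p)).1 h
  have h2 : p ^ padicValNat p k * p ∣ k :=
    (Nat.dvd_div_iff_mul_dvd pow_padicValNat_dvd).1 h1
  rw [← pow_succ] at h2
  exact pow_succ_padicValNat_not_dvd hk h2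

lemma indep (D1 : S_D1) [Fact p.Prime] (n : ℕ) (c : ℕ → ZMod p)
    (h : ∑ i ∈ Finset.range n, c i • mon p i = 0) : ∀ i < n, c i = 0 := by
  induction n with
  | zero => intro i hi; omega
  | succ n ih =>
    rw [Finset.sum_range_succ] at h
    have hn : c n = 0 := by
      by_contra hc
      refine D1 p n ?_
      have h1 : c n • mon p n = - ∑ i ∈ Finset.range n, c i • mon p i :=
        eq_neg_of_add_eq_zero_right h
      have h2 : c n • mon p n ∈ U p n := by
        rw [h1]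
        refine (U p n).neg_mem ((U p n).sum_mem fun i hi => (U p n).smul_mem _ (mon_mem ?_))
        exact Finset.mem_range.1 hi
      have := (U p n).smul_mem (c n)⁻¹ h2
      rwa [smul_smul, inv_mul_cancel₀ hc, one_smul] at this
    intro i hi
    rcases Nat.lt_succ_iff_lt_or_eq.1 hi with h' | rfl
    · refine ih ?_ i h'
      rw [hn, zero_smul, add_zero] at h
      exact h
    · exact hn

lemma exists_coeff (n : ℕ) : ∀ f ∈ U p n, ∃ c : ℕ → ZMod p,
    f = ∑ i ∈ Finset.range n, c i • mon p i := by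
  induction n with
  | zero => intro f hf; exact ⟨0, by simpa using U_zero hf⟩
  | succ n ih =>
    intro f hf
    obtain ⟨a, ha⟩ := U_succ hf
    obtain ⟨c, hc⟩ := ih _ ha
    refine ⟨Function.update c n a, ?_⟩
    rw [Finset.sum_range_succ, Function.update_self]
    rw [Finset.sum_congr rfl (g := fun i => c i • mon p i), ← hc]
    · simp
    · intro i hi
      rw [Function.update_of_ne (Finset.mem_range.1 hi).ne]

end U

section rdl
variable {p : ℕ} [Fact p.Prime]

lemma rd_add (f g : Zf p) : rd p (f + g) = rd p f + rd p g := by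
  funext x; simp [rd]
lemma rd_sub (f g : Zf p) : rd p (f - g) = rd p f - rd p g := by
  funext x; simp [rd]
lemma rd_smul (z : ℤ_[p]) (f : Zf p) : rd p (z • f) = PadicInt.toZMod z • rd p f := by
  funext x; simp [rd]
lemma rd_zero : rd p (0 : Zf p) = 0 := by
  funext x; simp [rd]

lemma toZMod_dvd {z : ℤ_[p]} (h : PadicInt.toZMod z = 0) : (p : ℤ_[p]) ∣ z := by
  have h1 : z ∈ RingHom.ker (PadicInt.toZMod : ℤ_[p] →+* ZMod p) := h
  rw [PadicInt.ker_toZMod, PadicInt.maximalIdeal_eq_span_p, Ideal.mem_span_singleton] at h1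
  exact h1

lemma toZMod_p_mul (z : ℤ_[p]) : PadicInt.toZMod ((p : ℤ_[p]) * z) = 0 := by
  rw [map_mul, map_natCast]; simp

end rdl

section main
variable {p : ℕ} [Fact p.Prime] {Q : Subgroup (Pm p)} {J α : ℕ} {e : Pm p → Zf p}
  {Λ : Submodule ℤ_[p] (Zf p)}

/-- scaled coercion -/
noncomputable def sc (p : ℕ) [Fact p.Prime] (m : ℤ) (f : Zf p) : Qf p :=
  fun x => (p : ℚ_[p]) ^ m * (f x : ℚ_[p])

lemma p_ne : (p : ℚ_[p]) ≠ 0 := by
  exact_mod_cast (Fact.out : p.Prime).ne_zero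

lemma sc_inj {m : ℤ} {f f' : Zf p} (h : sc p m f = sc p m f') : f = f' := by
  funext x
  have h1 := congrFun h x
  unfold sc at h1
  have h2 : (p : ℚ_[p]) ^ m ≠ 0 := zpow_ne_zero _ p_ne
  exact Subtype.ext (mul_left_cancel₀ h2 h1)

lemma sc_add (m : ℤ) (f f' : Zf p) : sc p m (f + f') = sc p m f + sc p m f' := by
  funext x; simp [sc, mul_add]
lemma sc_sub (m : ℤ) (f f' : Zf p) : sc p m (f - f') = sc p m f - sc p m f' := by
  funext x; simp [sc, mul_sub]
lemma sc_neg (m : ℤ) (f : Zf p) : sc p m (-f) = -sc p m f := by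
  funext x; simp [sc]
lemma sc_zero (m : ℤ) : sc p m (0 : Zf p) = 0 := by
  funext x; simp [sc]
lemma sc_smul (m : ℤ) (z : ℤ_[p]) (f : Zf p) : sc p m (z • f) = (z : ℚ_[p]) • sc p m f := by
  funext x; simp [sc]; ring
lemma sc_succ (m : ℤ) (f : Zf p) : sc p (m + 1) f = sc p m ((p : ℤ_[p]) • f) := by
  funext x; simp [sc, zpow_add₀ (p_ne (p := p))]; ring
lemma sc_succ' (m : ℤ) (f : Zf p) : sc p (m + 1) f = (p : ℚ_[p]) • sc p m f := by
  funext x; simp [sc, zpow_add₀ (p_ne (p := p))]; ring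

lemma sc_mem (m : ℤ) {f : Zf p} (hf : f ∈ Λ) : sc p m f ∈ LQ p Λ := by
  have h : sc p m f = ((p : ℚ_[p]) ^ m) • (fun x => (f x : ℚ_[p])) := by
    funext x; simp [sc]
  rw [h]
  exact (LQ p Λ).smul_mem _ (Submodule.subset_span ⟨f, hf, rfl⟩)

/-- `x ∈ p^m Λ_r` -/
def P (p α : ℕ) [Fact p.Prime] (Λ : Submodule ℤ_[p] (Zf p)) (m : ℤ) (r : ℕ) (x : Qf p) : Prop :=
  ∃ f ∈ Λ, rd p f ∈ U p (α - r) ∧ x = sc p m f

/-- the additive group -/
def PG (p α : ℕ) [Fact p.Prime] (Λ : Submodule ℤ_[p] (Zf p)) (m : ℤ) (r : ℕ) :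
    AddSubgroup (LQ p Λ) where
  carrier := {x | P p α Λ m r x.1}
  add_mem' := by
    rintro x y ⟨f, hf, hf2, hf3⟩ ⟨g, hg, hg2, hg3⟩
    refine ⟨f + g, Λ.add_mem hf hg, ?_, ?_⟩
    · rw [rd_add]; exact (U p _).add_mem hf2 hg2
    · rw [sc_add, ← hf3, ← hg3]; rfl
  zero_mem' := ⟨0, Λ.zero_mem, by rw [rd_zero]; exact (U p _).zero_mem, by rw [sc_zero]; rfl⟩
  neg_mem' := by
    rintro x ⟨f, hf, hf2, hf3⟩
    refine ⟨-f, Λ.neg_mem hf, ?_, ?_⟩
    · have : rd p (-f) = - rd p f := by funext x; simp [rd]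
      rw [this]; exact (U p _).neg_mem hf2
    · rw [sc_neg, ← hf3]; rfl

lemma mem_PG {m : ℤ} {r : ℕ} {x : LQ p Λ} : x ∈ PG p α Λ m r ↔ P p α Λ m r x.1 := Iff.rfl

lemma P_top (L : LHyp p Q J α e Λ) (m : ℤ) (x : Qf p) :
    P p α Λ m α x ↔ P p α Λ (m + 1) 0 x := by
  constructor
  · rintro ⟨f, hf, h1, h2⟩
    rw [Nat.sub_self] at h1
    have h3 := U_zero h1
    obtain ⟨h, hh, hh2⟩ := L.pure f hf (fun x => toZMod_dvd (congrFun h3 x))
    refine ⟨h, hh, ?_, ?_⟩
    · rw [Nat.sub_zero]; exact L.red h hh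
    · rw [h2, sc_succ]
      congr 1
      funext x
      rw [hh2 x]; rfl
  · rintro ⟨f, hf, h1, h2⟩
    refine ⟨(p : ℤ_[p]) • f, Λ.smul_mem _ hf, ?_, ?_⟩
    · have : rd p ((p : ℤ_[p]) • f) = 0 := by
        funext x
        exact toZMod_p_mul (f x)
      rw [this]; exact (U p _).zero_mem
    · rw [h2, sc_succ]

/-- the chain -/
def Cc (p α : ℕ) [Fact p.Prime] (Λ : Submodule ℤ_[p] (Zf p)) (n : ℤ) : AddSubgroup (LQ p Λ) :=
  PG p α Λ (n / α) (n % α).toNat

lemma Cc_eq (L : LHyp p Q J α e Λ) (hα : 1 ≤ α) (m : ℤ) (r : ℕ) (hr : r ≤ α) :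
    Cc p α Λ ((α : ℤ) * m + r) = PG p α Λ m r := by
  have hα' : (0 : ℤ) < α := by exact_mod_cast hα
  rcases lt_or_eq_of_le hr with h | rfl
  · have h1 : ((α : ℤ) * m + r) / α = m := by
      rw [Int.add_comm, Int.add_mul_ediv_left _ _ hα'.ne', Int.ediv_eq_zero_of_lt (by positivity)
        (by exact_mod_cast h), zero_add]
    have h2 : ((α : ℤ) * m + r) % α = r := by
      rw [Int.add_comm, Int.add_mul_emod_self_left, Int.emod_eq_of_lt (by positivity)
        (by exact_mod_cast h)]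
    unfold Cc
    rw [h1, h2]
    simp
  · have h1 : ((r : ℤ) * m + r) / r = m + 1 := by
      rw [show (r : ℤ) * m + r = r * (m + 1) by ring, Int.mul_ediv_cancel_left _ hα'.ne']
    have h2 : ((r : ℤ) * m + r) % r = 0 := by
      rw [show (r : ℤ) * m + r = r * (m + 1) by ring, Int.mul_emod_right]
    unfold Cc
    rw [h1, h2]
    ext x
    rw [mem_PG, mem_PG, P_top L]
    simp

/-- normal form of an index -/
lemma idx (hα : 1 ≤ α) (n : ℤ) : ∃ (m : ℤ) (r : ℕ), r < α ∧ n = (α : ℤ) * m + r := by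
  have hα' : (0 : ℤ) < α := by exact_mod_cast hα
  refine ⟨n / α, (n % α).toNat, ?_, ?_⟩
  · have := Int.emod_lt_of_pos n hα'
    omega
  · have h1 := Int.emod_nonneg n hα'.ne'
    rw [Int.toNat_of_nonneg h1]
    exact (Int.mul_ediv_add_emod n α).symm

lemma e_one (s : ℕ) {X : Pm p} {Φ : Zf p} (E : EHyp p s Q X J Φ e) (x : ℕ → ZMod p) :
    e 1 x = 1 := by
  have h1 := E.mul 1 Q.one_mem 1 Q.one_mem x
  have h2 := E.one 1 Q.one_mem x
  rw [mul_one] at h1
  change e 1 x = e 1 x * e 1 x at h1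
  have h3 : e 1 x ≠ 0 := by
    intro h
    rw [h, zero_sub] at h2
    have h4 : (p : ℤ_[p]) ∣ 1 := (dvd_neg).1 h2
    have h5 := isUnit_of_dvd_one h4
    exact PadicInt.prime_p.not_isUnit h5
  have h4 : e 1 x * (e 1 x - 1) = 0 := by rw [mul_sub, mul_one, ← h1, sub_self]
  rcases mul_eq_zero.1 h4 with h | h
  · exact absurd h h3
  · exact sub_eq_zero.1 h

/-- the operator of `g` -/
lemma exists_op (L : LHyp p Q J α e Λ) {g : Pm p} (hg : g ∈ Q) :
    ∃ A ∈ Ops p Q (LQ p Λ) (fun g x => (e g x : ℚ_[p])), ∀ f : LQ p Λ, ∀ x,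
      (A f : Qf p) x = (f : Qf p) (g x) * (e g x : ℚ_[p]) := by
  let L0 : Qf p →ₗ[ℚ_[p]] Qf p :=
    { toFun := fun f x => f (g x) * (e g x : ℚ_[p])
      map_add' := fun f f' => by funext x; simp [add_mul]
      map_smul' := fun c f => by funext x; simp [mul_assoc] }
  have h0 : ∀ f x, L0 f x = f (g x) * (e g x : ℚ_[p]) := fun f x => rfl
  have h : ∀ f ∈ LQ p Λ, L0 f ∈ LQ p Λ := by
    have : LQ p Λ ≤ (LQ p Λ).comap L0 := by
      unfold LQ
      rw [Submodule.span_le]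
      rintro F ⟨f, hf, rfl⟩
      refine Submodule.subset_span ⟨_, L.act g hg f hf, ?_⟩
      funext x
      rw [h0]
      simp
    exact this
  refine ⟨L0.restrict h, ⟨g, hg, fun f x => rfl⟩, fun f x => rfl⟩

/-- the action on `Λ` -/
noncomputable def ac (e : Pm p → Zf p) (g : Pm p) (f : Zf p) : Zf p := fun x => f (g x) * e g x

lemma rd_ac (s : ℕ) {X : Pm p} {Φ : Zf p} (E : EHyp p s Q X J Φ e) {g : Pm p} (hg : g ∈ Q)
    (f : Zf p) : rd p (ac e g f) = fun x => rd p f (g x) := by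
  funext x
  unfold rd ac
  rw [map_mul]
  have h : PadicInt.toZMod (e g x) = 1 := by
    obtain ⟨c, hc⟩ := E.one g hg x
    have : e g x = 1 + p * c := by rw [← hc]; ring
    rw [this, map_add, toZMod_p_mul, map_one, add_zero]
  rw [h, mul_one]

lemma op_sub {g : Pm p} {A : LQ p Λ →ₗ[ℚ_[p]] LQ p Λ}
    (hA : ∀ f : LQ p Λ, ∀ x, (A f : Qf p) x = (f : Qf p) (g x) * (e g x : ℚ_[p]))
    {x : LQ p Λ} {m : ℤ} {f : Zf p} (hx : x.1 = sc p m f) :
    (A x - x).1 = sc p m (ac e g f - f) := by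
  rw [sc_sub, ← hx]
  change (A x).1 - x.1 = _
  congr 1
  funext t
  rw [hA, hx]
  simp [sc, ac, mul_assoc]

/-! ### The basis -/

lemma approx (L : LHyp p Q J α e Λ) {b : Fin α → Zf p}
    (hb : ∀ i, b i ∈ Λ) (hb2 : ∀ i : Fin α, rd p (b i) = mon p i) (N : ℕ) :
    ∀ f ∈ Λ, ∃ (z : Fin α → ℤ_[p]) (h : Zf p), h ∈ Λ ∧
      ∀ x, f x = ∑ i, z i * b i x + (p : ℤ_[p]) ^ N * h x := by
  induction N with
  | zero => intro f hf; exact ⟨0, f, hf, fun x => by simp⟩
  | succ N ih =>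
    intro f hf
    obtain ⟨z, h, hh, hz⟩ := ih f hf
    obtain ⟨c, hc⟩ := exists_coeff α _ (L.red h hh)
    have hsurj : ∀ a : ZMod p, ∃ y : ℤ_[p], PadicInt.toZMod y = a := fun a => by
      refine ⟨((a.val : ℕ) : ℤ_[p]), ?_⟩
      rw [map_natCast]; simp
    choose lf hlf using hsurj
    have h1 : h - ∑ i : Fin α, lf (c i) • b i ∈ Λ :=
      Λ.sub_mem hh (Λ.sum_mem fun i _ => Λ.smul_mem _ (hb i))
    have h2 : rd p (h - ∑ i : Fin α, lf (c i) • b i) = 0 := by
      funext x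
      have h3 := congrFun hc x
      have h4 : ∀ i : Fin α, PadicInt.toZMod (b i x) = mon p i x := fun i => congrFun (hb2 i) x
      simp only [rd, Pi.sub_apply, Finset.sum_apply, Pi.smul_apply, smul_eq_mul, map_sub,
        map_sum, map_mul, hlf, h4, Pi.zero_apply] at h3 ⊢
      rw [h3, ← Fin.sum_univ_eq_sum_range (fun i => c i * mon p i x) α, sub_self]
    obtain ⟨h', hh', hh2⟩ := L.pure _ h1 (fun x => toZMod_dvd (congrFun h2 x))
    refine ⟨fun i => z i + (p : ℤ_[p]) ^ N * lf (c i), h', hh', fun x => ?_⟩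
    have h3 := hh2 x
    simp only [Pi.sub_apply, Finset.sum_apply, Pi.smul_apply, smul_eq_mul] at h3
    rw [hz x, pow_succ, mul_assoc, ← h3]
    simp only [add_mul, Finset.sum_add_distrib, mul_sub, Finset.mul_sum, mul_assoc]
    ring

lemma integral_span (L : LHyp p Q J α e Λ) {b : Fin α → Zf p}
    (hb : ∀ i, b i ∈ Λ) (hb2 : ∀ i : Fin α, rd p (b i) = mon p i) {f : Zf p} (hf : f ∈ Λ) :
    ∃ z : Fin α → ℤ_[p], f = ∑ i, z i • b i := by
  have h := fun N => approx L hb hb2 N f hf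
  choose z h' hh' hz using h
  obtain ⟨w, -, φ, hφ, hw⟩ := (isCompact_univ : IsCompact (Set.univ : Set (Fin α → ℤ_[p]))).tendsto_subseq
    (x := z) (fun n => Set.mem_univ _)
  refine ⟨w, ?_⟩
  funext x
  have h1 : Filter.Tendsto (fun n => f x - ∑ i, z (φ n) i * b i x) Filter.atTop
      (nhds (f x - ∑ i, w i * b i x)) := by
    refine tendsto_const_nhds.sub (tendsto_finsetSum _ fun i _ => ?_)
    exact ((tendsto_pi_nhds.1 hw i)).mul tendsto_const_nhds
  have h2 : Filter.Tendsto (fun n => f x - ∑ i, z (φ n) i * b i x) Filter.atTop (nhds 0) := by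
    rw [tendsto_zero_iff_norm_tendsto_zero]
    have h3 : Filter.Tendsto (fun n => ((p : ℝ)⁻¹) ^ (φ n)) Filter.atTop (nhds 0) := by
      refine (tendsto_pow_atTop_nhds_zero_of_lt_one (by positivity) ?_).comp hφ.tendsto_atTop
      exact inv_lt_one_of_one_lt₀ (by exact_mod_cast (Fact.out : p.Prime).one_lt)
    refine squeeze_zero (fun _ => norm_nonneg _) (fun n => ?_) h3
    have h4 : f x - ∑ i, z (φ n) i * b i x = (p : ℤ_[p]) ^ (φ n) * h' (φ n) x := by
      rw [hz (φ n) x]; ring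
    rw [h4, norm_mul, norm_pow, PadicInt.norm_p]
    exact mul_le_of_le_one_right (by positivity) (PadicInt.norm_le_one _)
  have h3 := tendsto_nhds_unique h1 h2
  rw [sub_eq_zero] at h3
  rw [h3]
  simp

lemma basis_ex (D1 : S_D1) (L : LHyp p Q J α e Λ) : ∃ b : Module.Basis (Fin α) ℚ_[p] (LQ p Λ),
    ∀ x : LQ p Λ, (∃ f ∈ Λ, x.1 = sc p 0 f) ↔ ∀ i, ‖b.repr x i‖ ≤ 1 := by
  have hex : ∀ i : Fin α, ∃ f ∈ Λ, rd p f = mon p i := fun i => L.surj _ (mon_mem i.2)
  choose b hb hb2 using hex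
  let v : Fin α → LQ p Λ := fun i => ⟨sc p 0 (b i), sc_mem 0 (hb i)⟩
  have hv : ∀ i, (v i).1 = sc p 0 (b i) := fun i => rfl
  have hli : LinearIndependent ℚ_[p] v := by
    rw [Fintype.linearIndependent_iff]
    intro a ha
    by_contra hne
    push Not at hne
    obtain ⟨i1, hi1⟩ := hne
    obtain ⟨i0, -, hi0⟩ := Finset.exists_max_image Finset.univ (fun i => ‖a i‖) ⟨i1, Finset.mem_univ _⟩
    have h0 : a i0 ≠ 0 := by
      intro h
      have := hi0 i1 (Finset.mem_univ _)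
      rw [h, norm_zero] at this
      exact hi1 (norm_le_zero_iff.1 this)
    have hle : ∀ i, ‖a i / a i0‖ ≤ 1 := by
      intro i
      rw [norm_div]
      exact div_le_one_of_le₀ (hi0 i (Finset.mem_univ _)) (norm_nonneg _)
    let c : Fin α → ℤ_[p] := fun i => ⟨a i / a i0, hle i⟩
    have h1 : ∑ i, c i • b i = 0 := by
      have h2 : sc p 0 (∑ i, c i • b i) = sc p 0 0 := by
        rw [sc_zero]
        funext x
        have h3 := congrArg (fun y : LQ p Λ => (a i0)⁻¹ * y.1 x) ha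
        simp only [Submodule.coe_sum, Submodule.coe_smul, Finset.sum_apply, Pi.smul_apply,
          smul_eq_mul, hv, Finset.mul_sum, Submodule.coe_zero, Pi.zero_apply, mul_zero] at h3
        refine Eq.trans ?_ h3
        simp only [sc, zpow_zero, one_mul, Finset.sum_apply, Pi.smul_apply, smul_eq_mul,
          PadicInt.coe_sum, PadicInt.coe_mul]
        refine Finset.sum_congr rfl fun i _ => ?_
        change (a i / a i0) * _ = _
        rw [div_eq_inv_mul, mul_assoc]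
      exact sc_inj h2
    have h2 : ∀ i, i < α → (fun j => if h : j < α then PadicInt.toZMod (c ⟨j, h⟩) else 0) i = (0 : ZMod p) := by
      refine indep D1 α _ ?_
      funext x
      have h3 := congrArg (fun f : Zf p => PadicInt.toZMod (f x)) h1
      have h4 : ∀ i : Fin α, PadicInt.toZMod (b i x) = mon p i x := fun i => congrFun (hb2 i) x
      simp only [Finset.sum_apply, Pi.smul_apply, smul_eq_mul, map_sum, map_mul, h4,
        Pi.zero_apply, map_zero] at h3
      rw [Finset.sum_apply, Pi.zero_apply]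
      refine Eq.trans ?_ h3
      rw [← Fin.sum_univ_eq_sum_range (fun i => ((if h : i < α then PadicInt.toZMod (c ⟨i, h⟩) else 0) • mon p i) x) α]
      refine Finset.sum_congr rfl fun i _ => ?_
      simp
    have h3 := h2 i0 i0.2
    simp only [Fin.is_lt, dif_pos, Fin.eta] at h3
    have h4 : c i0 = 1 := by
      apply Subtype.ext
      change a i0 / a i0 = 1
      exact div_self h0
    rw [h4, map_one] at h3
    exact one_ne_zero h3
  have hcoe : ∀ z : Fin α → ℤ_[p], (∑ i, (z i : ℚ_[p]) • v i : LQ p Λ).1 = sc p 0 (∑ i, z i • b i) := by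
    intro z
    funext x
    simp [sc, hv]
  have hsp : ⊤ ≤ Submodule.span ℚ_[p] (Set.range v) := by
    intro y _
    have h1 : LQ p Λ ≤ (Submodule.span ℚ_[p] (Set.range v)).map (LQ p Λ).subtype := by
      conv_lhs => unfold LQ
      rw [Submodule.span_le]
      rintro F ⟨f, hf, rfl⟩
      obtain ⟨z, hz⟩ := integral_span L hb hb2 hf
      refine ⟨∑ i, (z i : ℚ_[p]) • v i, ?_, ?_⟩
      · exact Submodule.sum_mem _ fun i _ => Submodule.smul_mem _ _ (Submodule.subset_span ⟨i, rfl⟩)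
      · change (∑ i, (z i : ℚ_[p]) • v i : LQ p Λ).1 = _
        rw [hcoe, ← hz]
        funext x; simp [sc]
    obtain ⟨w, hw, hwy⟩ := h1 y.2
    have : w = y := Subtype.ext hwy
    rw [← this]; exact hw
  refine ⟨Module.Basis.mk hli hsp, fun x => ⟨?_, ?_⟩⟩
  · rintro ⟨f, hf, hx⟩ i
    obtain ⟨z, hz⟩ := integral_span L hb hb2 hf
    have h1 : x = ∑ i, (z i : ℚ_[p]) • (Module.Basis.mk hli hsp) i := by
      apply Subtype.ext
      simp only [Module.Basis.mk_apply]
      rw [hcoe, ← hz, hx]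
    rw [h1, Module.Basis.repr_sum_self]
    exact (z i).2
  · intro h
    let z : Fin α → ℤ_[p] := fun i => ⟨(Module.Basis.mk hli hsp).repr x i, h i⟩
    have hz : ∀ i, (z i : ℚ_[p]) = (Module.Basis.mk hli hsp).repr x i := fun i => rfl
    refine ⟨∑ i, z i • b i, Λ.sum_mem fun i _ => Λ.smul_mem _ (hb i), ?_⟩
    rw [← hcoe]
    conv_lhs => rw [← (Module.Basis.mk hli hsp).sum_repr x]
    simp only [Module.Basis.mk_apply, hz]

end main

open Pool.Agent.W37.SG in
theorem main : S_CH := by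
  intro D1 D2 D3 D4 D5 p _ s Q X J α Φ e Λ B E L
  have hα : 1 ≤ α := B.A.apos
  refine ⟨Cc p α Λ, ?_⟩
  constructor
  · -- basis
    obtain ⟨b, hb⟩ := basis_ex D1 L
    refine ⟨b, fun x => ?_⟩
    rw [← hb x]
    have h0 : Cc p α Λ 0 = PG p α Λ 0 0 := by
      have := Cc_eq L hα 0 0 (Nat.zero_le _)
      simpa using this
    rw [h0, mem_PG]
    constructor
    · rintro ⟨f, hf, -, h2⟩; exact ⟨f, hf, h2⟩
    · rintro ⟨f, hf, h2⟩; exact ⟨f, hf, by rw [Nat.sub_zero]; exact L.red f hf, h2⟩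
  · -- anti
    intro n
    obtain ⟨m, r, hr, rfl⟩ := idx hα n
    have h1 := Cc_eq L hα m r hr.le
    have h2 := Cc_eq L hα m (r + 1) hr
    rw [h1, show ((α : ℤ) * m + r + 1) = (α : ℤ) * m + ((r + 1 : ℕ) : ℤ) by push_cast; ring, h2]
    rintro x ⟨f, hf, h3, h4⟩
    exact ⟨f, hf, U_mono (by omega) h3, h4⟩
  · -- per
    intro n x
    obtain ⟨m, r, hr, rfl⟩ := idx hα n
    have h1 := Cc_eq L hα m r hr.le
    have h2 := Cc_eq L hα (m + 1) r hr.le
    rw [h1, show ((α : ℤ) * m + r + α) = (α : ℤ) * (m + 1) + r by ring, h2]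
    constructor
    · rintro ⟨f, hf, h3, h4⟩
      refine ⟨⟨sc p m f, sc_mem m hf⟩, ⟨f, hf, h3, rfl⟩, ?_⟩
      apply Subtype.ext
      rw [h4, sc_succ']; rfl
    · rintro ⟨y, ⟨f, hf, h3, h4⟩, rfl⟩
      refine ⟨f, hf, h3, ?_⟩
      rw [sc_succ', ← h4]; rfl
  · -- step
    intro n x hx hx' y hy
    obtain ⟨m, r, hr, rfl⟩ := idx hα n
    have h1 := Cc_eq L hα m r hr.le
    have h2 := Cc_eq L hα m (r + 1) hr
    rw [show ((α : ℤ) * m + r + 1) = (α : ℤ) * m + ((r + 1 : ℕ) : ℤ) by push_cast; ring, h2]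
      at hx' ⊢
    rw [h1] at hx hy
    obtain ⟨f, hf, h3, h4⟩ := hx
    obtain ⟨f', hf', h3', h4'⟩ := hy
    obtain ⟨k, hk⟩ : ∃ k, α - r = k + 1 := ⟨α - r - 1, by omega⟩
    have hk' : α - (r + 1) = k := by omega
    rw [hk] at h3 h3'
    obtain ⟨c, hc⟩ := U_succ h3
    obtain ⟨c', hc'⟩ := U_succ h3'
    have hcne : c ≠ 0 := by
      rintro rfl
      refine hx' ⟨f, hf, ?_, h4⟩
      rw [hk']; simpa using hc
    refine ⟨(c' / c).val, ?_⟩
    refine ⟨f' - (((c' / c).val : ℕ) : ℤ_[p]) • f, Λ.sub_mem hf' (Λ.smul_mem _ hf), ?_, ?_⟩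
    · rw [hk', rd_sub, rd_smul, map_natCast, ZMod.natCast_val, ZMod.cast_id']
      have h5 := (U p k).sub_mem hc' ((U p k).smul_mem (c' / c) hc)
      have h6 : rd p f' - (id (c' / c)) • rd p f = rd p f' - c' • mon p k -
          (c' / c) • (rd p f - c • mon p k) := by
        rw [smul_sub, smul_smul, div_mul_cancel₀ _ hcne]
        simp only [id]
        abel
      rw [h6]; exact h5
    · rw [sc_sub, sc_smul, ← h4, ← h4', PadicInt.coe_natCast, Nat.cast_smul_eq_nsmul]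
      rfl
  · -- ne
    intro n
    obtain ⟨m, r, hr, rfl⟩ := idx hα n
    have h1 := Cc_eq L hα m r hr.le
    have h2 := Cc_eq L hα m (r + 1) hr
    rw [show ((α : ℤ) * m + r + 1) = (α : ℤ) * m + ((r + 1 : ℕ) : ℤ) by push_cast; ring, h2, h1]
    obtain ⟨f, hf, hf2⟩ := L.surj (mon p (α - (r + 1))) (mon_mem (by omega))
    refine ⟨⟨sc p m f, sc_mem m hf⟩, ⟨f, hf, ?_, rfl⟩, ?_⟩
    · rw [hf2]; exact mon_mem (by omega)
    · rintro ⟨f', hf', h3, h4⟩
      have := sc_inj h4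
      subst this
      rw [hf2] at h3
      exact D1 p _ h3
  · -- inv
    rintro A ⟨g, hg, hA⟩
    obtain ⟨A', hA', hA2⟩ := exists_op L (Q.inv_mem hg)
    refine ⟨A', hA', ?_⟩
    refine LinearMap.ext fun f => Subtype.ext (funext fun x => ?_)
    change (A (A' f)).1 x = f.1 x
    rw [hA, hA2]
    have h1 := E.mul g⁻¹ (Q.inv_mem hg) g hg x
    rw [inv_mul_cancel, e_one s E] at h1
    have h2 : g⁻¹ (g x) = x := Equiv.symm_apply_apply g x
    rw [h2, mul_assoc, ← PadicInt.coe_mul, ← h1]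
    simp
  · -- nil
    rintro A ⟨g, hg, hA⟩ n x hx
    obtain ⟨m, r, hr, rfl⟩ := idx hα n
    have h1 := Cc_eq L hα m r hr.le
    have h2 := Cc_eq L hα m (r + 1) hr
    rw [show ((α : ℤ) * m + r + 1) = (α : ℤ) * m + ((r + 1 : ℕ) : ℤ) by push_cast; ring, h2]
    rw [h1] at hx
    obtain ⟨f, hf, h3, h4⟩ := hx
    refine ⟨ac e g f - f, Λ.sub_mem (L.act g hg f hf) hf, ?_, op_sub hA h4⟩
    rw [rd_sub, rd_ac s E hg]
    have h5 := (D2 p g (B.tri g hg)).1 _ _ h3
    rw [show α - (r + 1) = α - r - 1 by omega]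
    exact h5
  · -- uni
    intro n x hx hx'
    obtain ⟨m, r, hr, rfl⟩ := idx hα n
    have h1 := Cc_eq L hα m r hr.le
    have h2 := Cc_eq L hα m (r + 1) hr
    rw [show ((α : ℤ) * m + r + 1) = (α : ℤ) * m + ((r + 1 : ℕ) : ℤ) by push_cast; ring, h2]
      at hx'
    rw [h1] at hx
    obtain ⟨f, hf, h3, h4⟩ := hx
    obtain ⟨k, hk⟩ : ∃ k, α - r = k + 1 := ⟨α - r - 1, by omega⟩
    have hk' : α - (r + 1) = k := by omega
    rw [hk] at h3
    obtain ⟨c, hc⟩ := U_succ h3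
    have hcne : c ≠ 0 := by
      rintro rfl
      refine hx' ⟨f, hf, ?_, h4⟩
      rw [hk']; simpa using hc
    rcases Nat.eq_zero_or_pos k with hk0 | hkpos
    · subst hk0
      have hr' : r = α - 1 := by omega
      have h5 := Cc_eq L hα (m + 1) 1 hα
      obtain ⟨g, hg, f1, hf1, hef, hf2⟩ := L.top
      obtain ⟨A, hA, hA2⟩ := exists_op L hg
      refine ⟨A, hA, ?_⟩
      have h6 : ((α : ℤ) * m + r + 2) = (α : ℤ) * (m + 1) + ((1 : ℕ) : ℤ) := by
        rw [hr']; push_cast [Nat.cast_sub hα]; ring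
      rw [h6, h5]
      rintro ⟨f', hf', h7, h8⟩
      rw [op_sub hA2 h4, sc_succ] at h8
      have h9 := sc_inj h8
      have h10 := U_zero hc
      have h11 : ∀ x, rd p f x = c := by
        intro x
        have := congrFun h10 x
        simp only [Pi.sub_apply, Pi.smul_apply, mon, Finset.range_zero, Finset.prod_empty,
          smul_eq_mul, mul_one, Pi.zero_apply] at this
        exact sub_eq_zero.1 this
      -- lift of `c`
      obtain ⟨cc, hcc⟩ : ∃ y : ℤ_[p], PadicInt.toZMod y = c :=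
        ⟨((c.val : ℕ) : ℤ_[p]), by rw [map_natCast]; simp⟩
      have h12 : f - cc • (fun _ => 1 : Zf p) ∈ Λ := Λ.sub_mem hf (Λ.smul_mem _ L.one_mem)
      obtain ⟨h, hh, hh2⟩ := L.pure _ h12 (fun x => toZMod_dvd (by
        have := h11 x
        simp only [rd] at this
        simp [this, hcc]))
      have h13 : f' = cc • f1 + (ac e g h - h) := by
        funext x
        have h14 := congrFun h9 x
        have h15 := hh2 x
        have h16 := hh2 (g x)
        simp only [Pi.sub_apply, Pi.smul_apply, smul_eq_mul, mul_one, ac, Pi.add_apply]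
          at h14 h15 h16 ⊢
        have h17 : f x = cc + p * h x := by rw [← h15]; ring
        have h18 : f (g x) = cc + p * h (g x) := by rw [← h16]; ring
        rw [h17, h18, hef x] at h14
        have hp : (p : ℤ_[p]) ≠ 0 := by exact_mod_cast (Fact.out : p.Prime).ne_zero
        apply mul_left_cancel₀ hp
        rw [← h14, hef x]
        ring
      rw [h13, rd_add, rd_smul, rd_sub, rd_ac s E hg, hcc] at h7
      have h14 : (fun x => rd p h (g x)) - rd p h ∈ U p (α - 1) :=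
        (D2 p g (B.tri g hg)).1 _ _ (L.red h hh)
      have h15 : c • rd p f1 ∈ U p (α - 1) := by
        have := (U p (α - 1)).sub_mem h7 h14
        simpa using this
      refine hf2 ?_
      have := (U p (α - 1)).smul_mem c⁻¹ h15
      rwa [smul_smul, inv_mul_cancel₀ hcne, one_smul] at this
    · have h5 := Cc_eq L hα m (r + 2) (by omega)
      obtain ⟨g, hg, hg2⟩ := B.tau_ne (padicValNat p k)
      obtain ⟨A, hA, hA2⟩ := exists_op L hg
      refine ⟨A, hA, ?_⟩
      rw [show ((α : ℤ) * m + r + 2) = (α : ℤ) * m + ((r + 2 : ℕ) : ℤ) by push_cast; ring, h5]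
      rintro ⟨f', hf', h7, h8⟩
      rw [op_sub hA2 h4] at h8
      have h9 := sc_inj h8
      rw [← h9, rd_sub, rd_ac s E hg, show α - (r + 2) = k - 1 by omega] at h7
      obtain ⟨hdep, hlead⟩ := D2 p g (B.tri g hg)
      have h10 := hdep _ _ hc
      have h11 := (U p (k - 1)).smul_mem c (hlead k hkpos)
      have h12 := (U p (k - 1)).add_mem h10 h11
      have hcf : cf p k g ≠ 0 := by
        unfold cf
        refine mul_ne_zero (ed_ne (by omega)) (mul_ne_zero ?_ hg2)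
        exact pow_ne_zero _ (neg_ne_zero.2 one_ne_zero)
      refine not_mem D1 (mul_ne_zero hcne hcf) (k := k - 1) ?_ h7
      convert h12 using 1
      funext x
      simp only [Pi.sub_apply, Pi.smul_apply, smul_eq_mul, Pi.add_apply]
      ring

end Pool.Agent.W405.SG.CH
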